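import Pool.Agent.Helper96.GU.StF

/-!
Module HPV of project GF (MP_2c90c1_al).
-/

set_option autoImplicit false

namespace Pool.Agent.Helper19.GF

open Pool.Agent.Helper96.UT hiding StTOP TopV TopE tht Bd VC EC
open Pool.Agent.Helper96.GU

variable {α : Type}

/-- The elements with a word of unit value. -/
private def BU (r : FreeMonoid (α × Bool)) : Subgroup (FreeGroup α) where
  carrier := {g | ∃ w : List (α × Bool), FreeGroup.mk w = g ∧ IsUnit (io r w)}
  one_mem' := ⟨[], rfl, isUnit_one⟩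
  mul_mem' := by
    rintro a b ⟨w, rfl, h⟩ ⟨w', rfl, h'⟩
    refine ⟨w ++ w', mk_append w w', ?_⟩
    rw [io_append]
    exact h.mul h'
  inv_mem' := by
    rintro a ⟨w, rfl, h⟩
    exact ⟨FreeGroup.invRev w, mk_invRev w, unit_invRev h⟩

theorem tHPV : StHPV := by
  intro α r Z hr h hh
  have hn : (0 : ℤ) < Z.n := by exact_mod_cast Z.pos
  have hs : Z.s ∈ BU r := by
    refine ⟨seg Z.c 0 Z.n, ?_, ?_⟩
    · rw [mk_seg, pre_zero, inv_one, one_mul, zero_add]
      rfl
    · rw [← hr, io_r]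
      exact isUnit_one
  have key : Hp r Z ≤ BU r := by
    refine (Subgroup.closure_le _).2 ?_
    rintro g ⟨j, k, u, hu, e, rfl⟩
    have hj0 := Int.emod_nonneg j hn.ne'
    have hk0 := Int.emod_nonneg k hn.ne'
    have hk1 := Int.emod_lt_of_pos k hn
    set j' := (j % (Z.n : ℤ)).toNat with hj'
    set k' := (k % (Z.n : ℤ)).toNat with hk'
    have ej : j = (j' : ℤ) + (j / Z.n) * Z.n := by
      rw [hj', Int.toNat_of_nonneg hj0, mul_comm]
      exact (Int.emod_add_mul_ediv j Z.n).symm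
    have ek : k = (k' : ℤ) + (k / Z.n) * Z.n := by
      rw [hk', Int.toNat_of_nonneg hk0, mul_comm]
      exact (Int.emod_add_mul_ediv k Z.n).symm
    have pj : pre Z.c j = Z.s ^ (j / Z.n) * pre Z.c (j' : ℤ) := by
      rw [← Z.pre_add_mul, ← ej]
    have pk : pre Z.c k = Z.s ^ (k / Z.n) * pre Z.c (k' : ℤ) := by
      rw [← Z.pre_add_mul, ← ek]
    have m1 : pre Z.c (j' : ℤ) * (pre Z.c (k' : ℤ))⁻¹ ∈ BU r := by
      refine ⟨seg Z.c 0 j' ++ FreeGroup.invRev (seg Z.c 0 k'), ?_, ?_⟩
      · rw [mk_append, mk_invRev, mk_seg, mk_seg, pre_zero, inv_one, one_mul, one_mul, zero_add,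
          zero_add]
      · have hRU : RU (io r (seg Z.c 0 k')) := by
          refine RU_seg r Z hr ?_
          omega
        rw [io_append]
        change IsUnit (sg r Z j * _)
        rw [e]
        change IsUnit (u * io r (seg Z.c 0 k') * _)
        rw [mul_assoc, one_IM1 r _ hRU, mul_one]
        exact hu
    rw [pj, pk, mul_inv_rev, ← mul_assoc, mul_assoc (Z.s ^ (j / Z.n))]
    exact (BU r).mul_mem ((BU r).mul_mem ((BU r).zpow_mem hs _) m1)
      ((BU r).inv_mem ((BU r).zpow_mem hs _))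
  exact key hh

end Pool.Agent.Helper19.GF
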